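import Pool.Agent.Lib.MP_6bc78b_nt.GP.H62.Defs7

/-! Project GP7 (MP_6bc78b_nt), row STRX: Parseval on the strip. -/

set_option autoImplicit false

open Complex Filter Topology MeasureTheory Set
open scoped ENNReal

namespace Pool.Agent.Lib.MP_6bc78b_nt.GP.G7.H74

/-- The finite sums. -/
noncomputable def FS (c : ℕ → ℂ) (N : ℕ) (y : ℝ) : ℂ :=
  ∑ n ∈ Finset.range N, c n * Complex.exp (-(n * y * I))

/-- Orthogonality. -/
theorem orth (M : ℕ) (k : ℤ) (hk : k ≠ 0) :
    ∫ y in (-(Real.pi * M))..(Real.pi * M), Complex.exp (k * I * y) = 0 := by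
  have h0 : (k : ℂ) * I ≠ 0 := mul_ne_zero (by exact_mod_cast hk) I_ne_zero
  rw [integral_exp_mul_complex h0]
  have e : Complex.exp ((k : ℂ) * I * ((Real.pi * M : ℝ) : ℂ)) =
      Complex.exp ((k : ℂ) * I * ((-(Real.pi * M) : ℝ) : ℂ)) := by
    rw [Complex.exp_eq_exp_iff_exists_int]
    refine ⟨k * M, ?_⟩
    push_cast
    ring
  rw [e, sub_self, zero_div]

theorem cont_FS (c : ℕ → ℂ) (N : ℕ) : Continuous (FS c N) := by
  unfold FS
  fun_prop

theorem pars (c : ℕ → ℂ) (N M : ℕ) :
    ∫ y in (-(Real.pi * M))..(Real.pi * M), ‖FS c N y‖ ^ 2 =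
      2 * Real.pi * M * ∑ n ∈ Finset.range N, ‖c n‖ ^ 2 := by
  have h : ((∫ y in (-(Real.pi * M))..(Real.pi * M), ‖FS c N y‖ ^ 2 : ℝ) : ℂ) =
      ((2 * Real.pi * M * ∑ n ∈ Finset.range N, ‖c n‖ ^ 2 : ℝ) : ℂ) := by
    rw [← intervalIntegral.integral_ofReal]
    have e : ∀ y : ℝ, ((‖FS c N y‖ ^ 2 : ℝ) : ℂ) = ∑ m ∈ Finset.range N,
        ∑ n ∈ Finset.range N, (c m * (starRingEnd ℂ) (c n)) *
          Complex.exp ((((n : ℤ) - (m : ℤ) : ℤ) : ℂ) * I * y) := by
      intro y
      push_cast
      rw [← Complex.mul_conj', FS, map_sum, Finset.sum_mul_sum]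
      refine Finset.sum_congr rfl fun m _ => Finset.sum_congr rfl fun n _ => ?_
      rw [map_mul, ← Complex.exp_conj]
      have e1 : (starRingEnd ℂ) (-((n : ℂ) * (y : ℂ) * I)) = n * y * I := by
        simp
      rw [e1, mul_mul_mul_comm, ← Complex.exp_add]
      ring_nf
    simp only [e]
    rw [intervalIntegral.integral_finsetSum]
    swap
    · intro m _
      apply Continuous.intervalIntegrable
      fun_prop
    rw [Finset.mul_sum, Complex.ofReal_sum]
    refine Finset.sum_congr rfl fun m hm => ?_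
    rw [intervalIntegral.integral_finsetSum]
    swap
    · intro n _
      apply Continuous.intervalIntegrable
      fun_prop
    rw [Finset.sum_eq_single m]
    · rw [intervalIntegral.integral_const_mul]
      simp only [sub_self, Int.cast_zero, zero_mul, Complex.exp_zero,
        intervalIntegral.integral_const]
      rw [Complex.mul_conj']
      simp only [Complex.real_smul]
      push_cast
      ring
    · intro n _ hn
      rw [intervalIntegral.integral_const_mul, orth M _ (by
        intro h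
        apply hn
        omega), mul_zero]
    · intro h
      exact absurd hm h
  exact_mod_cast h

theorem lpars (c : ℕ → ℂ) (N M : ℕ) :
    ∫⁻ y in Icc (-(Real.pi * M)) (Real.pi * M), ENNReal.ofReal (‖FS c N y‖ ^ 2) =
      ENNReal.ofReal (2 * Real.pi * M * ∑ n ∈ Finset.range N, ‖c n‖ ^ 2) := by
  have hle : -(Real.pi * M) ≤ Real.pi * M := by
    have : 0 ≤ Real.pi * M := by positivity
    linarith
  rw [← pars c N M, intervalIntegral.integral_of_le hle, ← integral_Icc_eq_integral_Ioc,
    ofReal_integral_eq_lintegral_ofReal]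
  · apply Continuous.integrableOn_Icc
    exact ((cont_FS c N).norm).pow 2
  · exact Eventually.of_forall fun y => by positivity

theorem infin (c : ℕ → ℂ) (hc : Summable (fun n => ‖c n‖)) (S : ℝ)
    (hS : ∀ N, ∑ n ∈ Finset.range N, ‖c n‖ ^ 2 ≤ S) (M : ℕ) :
    ∫⁻ y in Icc (-(Real.pi * M)) (Real.pi * M),
      ENNReal.ofReal (‖∑' n : ℕ, c n * Complex.exp (-(n * y * I))‖ ^ 2) ≤
      ENNReal.ofReal (2 * Real.pi * M * S) := by
  have hnorm : ∀ (y : ℝ) (n : ℕ), ‖c n * Complex.exp (-(n * y * I))‖ = ‖c n‖ := by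
    intro y n
    rw [norm_mul, Complex.norm_exp]
    simp
  have hlim : ∀ y : ℝ, Tendsto (fun N => ENNReal.ofReal (‖FS c N y‖ ^ 2)) atTop
      (𝓝 (ENNReal.ofReal (‖∑' n : ℕ, c n * Complex.exp (-(n * y * I))‖ ^ 2))) := by
    intro y
    have h1 : Summable (fun n : ℕ => c n * Complex.exp (-(n * y * I))) := by
      apply Summable.of_norm
      simpa only [hnorm y] using hc
    have h2 := h1.hasSum.tendsto_sum_nat
    exact (ENNReal.continuous_ofReal.tendsto _).comp ((h2.norm).pow 2)
  calc ∫⁻ y in Icc (-(Real.pi * M)) (Real.pi * M),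
      ENNReal.ofReal (‖∑' n : ℕ, c n * Complex.exp (-(n * y * I))‖ ^ 2)
      = ∫⁻ y in Icc (-(Real.pi * M)) (Real.pi * M),
        liminf (fun N => ENNReal.ofReal (‖FS c N y‖ ^ 2)) atTop :=
        lintegral_congr fun y => ((hlim y).liminf_eq).symm
    _ ≤ liminf (fun N => ∫⁻ y in Icc (-(Real.pi * M)) (Real.pi * M),
        ENNReal.ofReal (‖FS c N y‖ ^ 2)) atTop :=
        lintegral_liminf_le fun N =>
          ((ENNReal.continuous_ofReal.comp (((cont_FS c N).norm).pow 2))).measurable
    _ ≤ ENNReal.ofReal (2 * Real.pi * M * S) := by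
        refine liminf_le_of_frequently_le' (Frequently.of_forall fun N => ?_)
        rw [lpars]
        apply ENNReal.ofReal_le_ofReal
        apply mul_le_mul_of_nonneg_left (hS N)
        positivity

end Pool.Agent.Lib.MP_6bc78b_nt.GP.G7.H74

namespace Pool.Agent.Lib.MP_6bc78b_nt.GP.G7

open H74 in
theorem strx : STRXStatement := by
  intro a b R ha hab hR
  set M : ℕ := ⌈R⌉₊ with hM
  refine ⟨2 * Real.pi * (M + 1) * (b - a), by
    have := Real.pi_pos
    have : 0 < b - a := by linarith
    positivity, ?_⟩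
  intro T α hT hα
  obtain ⟨D, hD⟩ := hα
  have hT0 : 0 < T := by linarith
  have haT : 0 < a / T := by positivity
  have hD0 : 0 ≤ D := by
    have := (abs_nonneg _).trans (hD 0)
    simpa using this
  -- summability
  have sum1 : ∀ x : ℝ, 0 < x → Summable (fun n : ℕ => D * (1 + n) * Real.exp (-(n * x))) := by
    intro x hx
    have h1 := Real.summable_pow_mul_exp_neg_nat_mul 0 hx
    have h2 := Real.summable_pow_mul_exp_neg_nat_mul 1 hx
    refine ((h1.add h2).mul_left D).congr fun n => ?_
    rw [show -(n * x) = -x * n by ring]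
    ring
  have sum2 : Summable (fun n : ℕ => α n ^ 2 * Real.exp (-(2 * a / T * n))) := by
    have hr : 0 < 2 * a / T := by positivity
    have h1 := Real.summable_pow_mul_exp_neg_nat_mul 0 hr
    have h2 := Real.summable_pow_mul_exp_neg_nat_mul 1 hr
    have h3 := Real.summable_pow_mul_exp_neg_nat_mul 2 hr
    refine Summable.of_nonneg_of_le (fun n => by positivity) (fun n => ?_)
      (((h1.add (h2.mul_left 2)).add h3).mul_left (D ^ 2))
    have h4 : α n ^ 2 ≤ (D * (1 + n)) ^ 2 := by
      rw [← sq_abs]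
      exact pow_le_pow_left₀ (abs_nonneg _) (hD n) 2
    have h5 := mul_le_mul_of_nonneg_right h4 (Real.exp_pos (-(2 * a / T * n))).le
    refine h5.trans (le_of_eq ?_)
    rw [show -(2 * a / T * (n : ℝ)) = -(2 * a / T) * n by ring]
    ring
  set S : ℝ := ∑' n : ℕ, α n ^ 2 * Real.exp (-(2 * a / T * n)) with hS
  have hS0 : 0 ≤ S := tsum_nonneg fun n => by positivity
  -- one line
  have hfib : ∀ x ∈ Icc (a / T) (b / T), ∫⁻ y in Icc (-R) R,
      ENNReal.ofReal (‖ES α (x + y * I)‖ ^ 2) ≤ ENNReal.ofReal (2 * Real.pi * M * S) := by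
    intro x hx
    have hx0 : 0 < x := haT.trans_le hx.1
    have hsub : Icc (-R) R ⊆ Icc (-(Real.pi * M)) (Real.pi * M) := by
      have h1 : R ≤ M := Nat.le_ceil R
      have h2 : (M : ℝ) ≤ Real.pi * M := by
        have := Real.pi_gt_three
        have : (0 : ℝ) ≤ M := by positivity
        nlinarith
      exact Icc_subset_Icc (by linarith) (by linarith)
    refine (lintegral_mono_set hsub).trans ?_
    have hES : ∀ y : ℝ, ES α (x + y * I) =
        ∑' n : ℕ, ((α n * Real.exp (-(n * x)) : ℝ) : ℂ) * Complex.exp (-(n * y * I)) := by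
      intro y
      unfold ES
      refine tsum_congr fun n => ?_
      push_cast
      rw [mul_assoc, ← Complex.exp_add]
      ring_nf
    simp only [hES]
    refine infin _ ?_ S ?_ M
    · refine Summable.of_nonneg_of_le (fun n => norm_nonneg _) (fun n => ?_) (sum1 x hx0)
      rw [Complex.norm_real, Real.norm_eq_abs, abs_mul, abs_of_pos (Real.exp_pos _)]
      exact mul_le_mul_of_nonneg_right (hD n) (Real.exp_pos _).le
    · intro N
      have h1 : ∑ n ∈ Finset.range N, ‖((α n * Real.exp (-(n * x)) : ℝ) : ℂ)‖ ^ 2 ≤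
          ∑ n ∈ Finset.range N, α n ^ 2 * Real.exp (-(2 * a / T * n)) := by
        refine Finset.sum_le_sum fun n _ => ?_
        rw [Complex.norm_real, Real.norm_eq_abs, sq_abs, mul_pow]
        refine mul_le_mul_of_nonneg_left ?_ (sq_nonneg _)
        rw [← Real.exp_nat_mul]
        apply Real.exp_le_exp.2
        have h2 : a / T * n ≤ x * n := mul_le_mul_of_nonneg_right hx.1 (Nat.cast_nonneg n)
        have h3 : 2 * a / T * (n : ℝ) = 2 * (a / T * n) := by ring
        rw [h3]
        push_cast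
        linarith
      exact h1.trans (sum2.sum_le_tsum _ fun n _ => by positivity)
  -- Fubini
  have hvol : ∫⁻ z in strip a b R T, ENNReal.ofReal (‖ES α z‖ ^ 2) =
      ∫⁻ p in Icc (a / T) (b / T) ×ˢ Icc (-R) R,
        ENNReal.ofReal (‖ES α (p.1 + p.2 * I)‖ ^ 2) ∂(volume.prod volume) := by
    have h1 := (Complex.volume_preserving_equiv_real_prod.symm).setLIntegral_comp_preimage_emb
      (Complex.measurableEquivRealProd.symm.measurableEmbedding)
      (fun z => ENNReal.ofReal (‖ES α z‖ ^ 2)) (strip a b R T)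
    rw [← h1]
    have h2 : Complex.measurableEquivRealProd.symm ⁻¹' strip a b R T =
        Icc (a / T) (b / T) ×ˢ Icc (-R) R := by
      ext ⟨x, y⟩
      simp only [strip, mem_preimage, mem_ofPred_eq, mem_prod, mem_Icc, abs_le]
      constructor
      · rintro ⟨h3, h4, h5⟩
        exact ⟨⟨h3, h4⟩, h5⟩
      · rintro ⟨⟨h3, h4⟩, h5⟩
        exact ⟨h3, h4, h5⟩
    rw [h2]
    refine lintegral_congr fun p => ?_
    have h3 : Complex.measurableEquivRealProd.symm p = (p.1 : ℂ) + p.2 * I := by
      apply Complex.ext <;> simp [Complex.measurableEquivRealProd]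
    rw [h3]
  rw [hvol, ← Measure.prod_restrict]
  refine (lintegral_prod_le _).trans ?_
  calc ∫⁻ x in Icc (a / T) (b / T), ∫⁻ y in Icc (-R) R,
        ENNReal.ofReal (‖ES α (x + y * I)‖ ^ 2)
      ≤ ∫⁻ _ in Icc (a / T) (b / T), ENNReal.ofReal (2 * Real.pi * M * S) :=
        setLIntegral_mono' measurableSet_Icc hfib
    _ = ENNReal.ofReal (2 * Real.pi * M * S) * ENNReal.ofReal (b / T - a / T) := by
        rw [setLIntegral_const, Real.volume_Icc]
    _ ≤ ENNReal.ofReal (2 * Real.pi * (M + 1) * (b - a) / T * S) := by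
        rw [← ENNReal.ofReal_mul (by positivity)]
        apply ENNReal.ofReal_le_ofReal
        have h1 : 0 ≤ b - a := by linarith
        have h2 : 2 * Real.pi * (M + 1) * (b - a) / T * S =
            2 * Real.pi * M * S * (b / T - a / T) + 2 * Real.pi * ((b - a) / T) * S := by
          field_simp
        rw [h2]
        have h3 : 0 ≤ 2 * Real.pi * ((b - a) / T) * S := by positivity
        linarith

end Pool.Agent.Lib.MP_6bc78b_nt.GP.G7
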